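import Pool.Agent.W516.KCM.Defs

/-!
KCM-ISO: the trace on a totally isotropic subspace (helper505).
-/

set_option linter.unusedSectionVars false

namespace Pool.Agent.W505.KCM.ISO

open Module TensorProduct Pool.Agent.W516.K3 Pool.Agent.W516.KU Pool.Agent.W516.KCM

/-! ### Products -/

section ring

variable {A : Type*} [Ring A]

theorem comm_prod (Z : A) : ∀ (n : ℕ) (a : Fin n → A),
    Z * (List.ofFn a).prod - (List.ofFn a).prod * Z =
      ∑ i, (List.ofFn (Function.update a i (Z * a i - a i * Z))).prod := by
  intro n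
  induction n with
  | zero => intro a; simp
  | succ n ih =>
    intro a
    have h0 : ∀ y, List.ofFn (Function.update a 0 y) = y :: List.ofFn (fun i => a (Fin.succ i)) := by
      intro y
      rw [List.ofFn_succ, Function.update_self]
      congr 2
    have h1 : ∀ (i : Fin n) y, List.ofFn (Function.update a i.succ y) =
        a 0 :: List.ofFn (Function.update (fun i => a (Fin.succ i)) i y) := by
      intro i y
      rw [List.ofFn_succ, Function.update_of_ne (Fin.succ_ne_zero i).symm]
      congr 2
      funext j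
      by_cases hj : j = i
      · subst hj
        rw [Function.update_self, Function.update_self]
      · rw [Function.update_of_ne hj, Function.update_of_ne (fun h => hj (Fin.succ_injective _ h))]
    rw [Fin.sum_univ_succ, h0, List.prod_cons]
    simp_rw [h1, List.prod_cons]
    rw [← Finset.mul_sum, ← ih, List.ofFn_succ, List.prod_cons]
    noncomm_ring

end ring

variable {L T H : Type} [Field L] [CharZero L] [AddCommGroup T] [Module L T]
  [FiniteDimensional L T] [AddCommGroup H] [Module L H] [FiniteDimensional L H] [Nontrivial H]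
  {b : T →ₗ[L] T →ₗ[L] L} {γ : T →ₗ[L] Module.End L H}

theorem anti (hγ : ∀ u v, γ u * γ v + γ v * γ u = (2 * b u v) • (1 : Module.End L H)) {w : T} :
    ∀ (n : ℕ) (u : Fin n → T), (∀ i, b (u i) w = 0) → ∃ c : L,
      γ w * (List.ofFn fun i => γ (u i)).prod = c • ((List.ofFn fun i => γ (u i)).prod * γ w) := by
  intro n
  induction n with
  | zero => intro u _; exact ⟨1, by simp⟩
  | succ n ih =>
    intro u hu
    obtain ⟨c, hc⟩ := ih (fun i => u i.succ) fun i => hu _
    refine ⟨-c, ?_⟩
    rw [List.ofFn_succ, List.prod_cons]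
    have h1 := hγ (u 0) w
    rw [hu 0, mul_zero, zero_smul] at h1
    have h2 : γ w * γ (u 0) = -(γ (u 0) * γ w) := by
      rw [eq_neg_iff_add_eq_zero, add_comm]
      exact h1
    rw [← mul_assoc, h2, neg_mul, mul_assoc, hc, mul_smul_comm, neg_smul, mul_assoc]

theorem prod_ne (hγ : ∀ u v, γ u * γ v + γ v * γ u = (2 * b u v) • (1 : Module.End L H)) :
    ∀ (n : ℕ) (u w : Fin n → T), (∀ i j, b (u i) (w j) = if i = j then 1 else 0) →
      (List.ofFn fun i => γ (u i)).prod ≠ 0 := by
  intro n
  induction n with
  | zero =>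
    intro u w _
    rw [List.ofFn_zero, List.prod_nil]
    exact one_ne_zero
  | succ n ih =>
    intro u w h h0
    rw [List.ofFn_succ, List.prod_cons] at h0
    obtain ⟨Q, hQ⟩ : ∃ Q : Module.End L H, Q = (List.ofFn fun i : Fin n => γ (u i.succ)).prod :=
      ⟨_, rfl⟩
    have hne := ih (fun i => u i.succ) (fun i => w i.succ) fun i j => by
      rw [h]
      simp [Fin.succ_inj]
    obtain ⟨c, hc⟩ := anti hγ (w := w 0) n (fun i => u i.succ) fun i => by
      rw [h, if_neg (Fin.succ_ne_zero i)]
    rw [← hQ] at h0 hne hc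
    have h1 := hγ (u 0) (w 0)
    rw [h 0 0, if_pos rfl, mul_one] at h1
    have h2 : (γ (u 0) * γ (w 0) + γ (w 0) * γ (u 0)) * Q = 0 := by
      rw [add_mul, mul_assoc, mul_assoc, h0, hc, mul_smul_comm, ← mul_assoc, h0, zero_mul,
        smul_zero, mul_zero, add_zero]
    rw [h1, smul_mul_assoc, one_mul] at h2
    exact hne ((smul_eq_zero.1 h2).resolve_left two_ne_zero)

theorem comm_adj {S : Set (Module.End L H)} {P a : Module.End L H}
    (h : ∀ Z ∈ S, Z * P = P * Z) (ha : a ∈ Algebra.adjoin L S) : a * P = P * a := by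
  induction ha using Algebra.adjoin_induction with
  | mem x hx => exact h x hx
  | algebraMap r => exact Algebra.commutes r P
  | add x y _ _ h1 h2 => rw [add_mul, mul_add, h1, h2]
  | mul x y _ _ h1 h2 => rw [mul_assoc, h2, ← mul_assoc, h1, mul_assoc]

theorem T_ISO : S_ISO := by
  intro L T H _ _ _ _ _ _ _ _ _ b γ P S hsym hnd hγ hPP hiso hlift hcomm htr Z hZ x hx hxP
  obtain ⟨U, hU⟩ : ∃ U : Submodule L T, U = LinearMap.range P := ⟨_, rfl⟩
  have hUr : ∀ t ∈ U, ∃ a, P a = t := fun t ht => by rw [hU] at ht; exact ht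
  have hUU : ∀ u v : U, b (u : T) (v : T) = 0 := by
    intro u v
    obtain ⟨a, ha⟩ := hUr _ u.2
    obtain ⟨c, hc⟩ := hUr _ v.2
    rw [← ha, ← hc, hiso]
  have hsq : ∀ u : U, (γ ∘ₗ U.subtype) u * (γ ∘ₗ U.subtype) u = 0 := by
    intro u
    have h1 := hγ u u
    rw [hUU, mul_zero, zero_smul, ← two_mul] at h1
    rw [LinearMap.comp_apply, Submodule.subtype_apply]
    have h2 : (2 : Module.End L H) = (2 : L) • 1 := by
      rw [ofNat_smul_eq_nsmul (R := L)]
      norm_num
    rw [h2, smul_mul_assoc, one_mul] at h1
    exact (smul_eq_zero.1 h1).resolve_left two_ne_zero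
  let r := finrank L U
  let B : Basis (Fin r) L U := Module.finBasis L U
  let F : U [⋀^Fin r]→ₗ[L] Module.End L H :=
    (ExteriorAlgebra.lift L ⟨γ ∘ₗ U.subtype, hsq⟩).toLinearMap.compAlternatingMap
      (ExteriorAlgebra.ιMulti L r)
  have hF : ∀ v : Fin r → U, F v = (List.ofFn fun i => γ (v i)).prod := by
    intro v
    show (ExteriorAlgebra.lift L ⟨γ ∘ₗ U.subtype, hsq⟩) (ExteriorAlgebra.ιMulti L r v) = _
    rw [ExteriorAlgebra.ιMulti_apply, map_list_prod, List.map_ofFn]
    congr 2
    funext i
    rw [Function.comp_apply, ExteriorAlgebra.lift_ι_apply]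
    rfl
  -- the image is stable
  have hmem : ∀ y : Module.End L T, y * P = P * y → ∀ u ∈ U, y u ∈ U := by
    intro y hy u hu
    rw [hU] at hu ⊢
    obtain ⟨a, rfl⟩ := hu
    refine ⟨y a, ?_⟩
    have := congrArg (fun f : Module.End L T => f a) hy
    exact this.symm
  have htrace : ∀ (y : Module.End L T) (hy : y * P = P * y),
      LinearMap.trace L T (y * P) = ∑ i, B.repr (y.restrict (hmem y hy) (B i)) i := by
    intro y hy
    have hPm : ∀ t, P t ∈ U := fun t => by rw [hU]; exact ⟨t, rfl⟩
    have h1 : y * P = U.subtype ∘ₗ (y.restrict (hmem y hy) ∘ₗ P.codRestrict U hPm) := by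
      refine LinearMap.ext fun t => ?_
      rfl
    have h2 : (y.restrict (hmem y hy) ∘ₗ P.codRestrict U hPm) ∘ₗ U.subtype =
        y.restrict (hmem y hy) := by
      refine LinearMap.ext fun u => ?_
      have h3 : P.codRestrict U hPm u = u := by
        apply Subtype.ext
        show P (u : T) = u
        obtain ⟨a, ha⟩ := hUr _ u.2
        rw [← ha]
        exact congrArg (fun f : Module.End L T => f a) hPP
      show y.restrict (hmem y hy) (P.codRestrict U hPm u) = _
      rw [h3]
    rw [h1, LinearMap.trace_comp_comm', h2, LinearMap.trace_eq_matrix_trace L B, Matrix.trace]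
    refine Finset.sum_congr rfl fun i _ => ?_
    rw [Matrix.diag_apply, LinearMap.toMatrix_apply]
  -- the commutator
  have hcom : ∀ (Z : Module.End L H) (y : Module.End L T), IsLift γ Z y → y * P = P * y →
      Z * F B - F B * Z = LinearMap.trace L T (y * P) • F B := by
    intro Z y hZy hy
    rw [htrace y hy, hF, comm_prod Z, Finset.sum_smul]
    refine Finset.sum_congr rfl fun i _ => ?_
    have h1 : Function.update (fun i => γ (B i : T)) i (Z * γ (B i) - γ (B i) * Z) =
        fun j => γ ((Function.update (⇑B) i (y.restrict (hmem y hy) (B i)) j : U) : T) := by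
      funext j
      by_cases hj : j = i
      · subst hj
        rw [Function.update_self, Function.update_self, hZy]
        rfl
      · rw [Function.update_of_ne hj, Function.update_of_ne hj]
    rw [h1, ← hF, ← hF]
    conv_lhs => rw [← B.sum_repr (y.restrict (hmem y hy) (B i))]
    rw [AlternatingMap.map_update_sum]
    rw [Finset.sum_eq_single i]
    · rw [AlternatingMap.map_update_smul, Function.update_eq_self]
    · intro j _ hj
      rw [AlternatingMap.map_update_smul, AlternatingMap.map_update_self _ _ hj.symm, smul_zero]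
    · intro h
      exact absurd (Finset.mem_univ _) h
  -- the product does not vanish
  have hFne : F B ≠ 0 := by
    rw [hF]
    have hbij : Function.Surjective b := by
      have hinj : Function.Injective b := by
        rw [injective_iff_map_eq_zero]
        intro u hu
        exact hnd u fun v => by rw [hu]; rfl
      exact (LinearMap.injective_iff_surjective_of_finrank_eq_finrank
        (Subspace.dual_finrank_eq (K := L) (V := T)).symm).1 hinj
    have hw : ∀ j, ∃ w : T, ∀ i, b (B i : T) w = if i = j then 1 else 0 := by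
      intro j
      obtain ⟨φ, hφ⟩ := LinearMap.exists_extend (B.coord j)
      obtain ⟨w, hw⟩ := hbij φ
      refine ⟨w, fun i => ?_⟩
      rw [hsym, hw]
      have h1 := congrArg (fun f : U →ₗ[L] L => f (B i)) hφ
      have h2 : φ (B i : T) = B.coord j (B i) := h1
      rw [h2, Basis.coord_apply, Basis.repr_self, Finsupp.single_apply]
    choose w hw using hw
    exact prod_ne hγ _ (fun i => (B i : T)) w fun i j => hw j i
  have hS : Z * F B = F B * Z := by
    have hgen : ∀ Z ∈ {Z | ∃ p ∈ S, p.1 = Z}, Z * F B = F B * Z := by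
      rintro _ ⟨p, hp, rfl⟩
      have h1 := hcom p.1 p.2 (hlift p hp) (hcomm p hp)
      rw [htr p hp, zero_smul] at h1
      exact sub_eq_zero.1 h1
    exact comm_adj hgen hZ
  have h1 := hcom Z x hx hxP
  rw [hS, sub_self] at h1
  exact (smul_eq_zero.1 h1.symm).resolve_right hFne

end Pool.Agent.W505.KCM.ISO
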