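import Pool.Agent.W516.KCM.Defs
import Pool.Agent.W516.DRCoef
import Pool.Agent.W52.KU.ADJ

/-!
KCM-LIFTC: lifts over an extension of the base field (helper505).
-/

namespace Pool.Agent.W505.KCM.LIFTC

open Module TensorProduct Pool.Agent.W516.K3 Pool.Agent.W516.KU Pool.Agent.W516.KCM
  Pool.Agent.W516.DR

set_option linter.unusedSectionVars false

section

variable {F T H : Type} [Field F] [AddCommGroup T] [Module F T] [AddCommGroup H] [Module F H]
  (γ : T →ₗ[F] Module.End F H)

theorem sp_zero_left (v : T) : sp γ 0 v = 0 := by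
  unfold sp
  rw [map_zero, zero_mul, mul_zero, sub_zero]

theorem sp_zero_right (v : T) : sp γ v 0 = 0 := by
  unfold sp
  rw [map_zero, zero_mul, mul_zero, sub_zero]

theorem sp_add_left (u u' v : T) : sp γ (u + u') v = sp γ u v + sp γ u' v := by
  unfold sp
  rw [map_add, add_mul, mul_add]
  abel

theorem sp_add_right (u v v' : T) : sp γ u (v + v') = sp γ u v + sp γ u v' := by
  unfold sp
  rw [map_add, add_mul, mul_add]
  abel

theorem sp_apply (u v : T) (h : H) : sp γ u v h = γ u (γ v h) - γ v (γ u h) := rfl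

end

section

variable {k L T H : Type} [Field k] [CharZero k] [Field L] [CharZero L] [Algebra k L]
  [AddCommGroup T] [Module k T] [FiniteDimensional k T] [AddCommGroup H] [Module k H]
  [FiniteDimensional k H]
  {γ : T →ₗ[k] Module.End k H} {γL : (L ⊗[k] T) →ₗ[L] Module.End L (L ⊗[k] H)}

theorem cmp_baseChange (lam : L →ₗ[k] k) (P : Module.End k H) (w : L ⊗[k] H) :
    cmp lam (P.baseChange L w) = P (cmp lam w) := by
  induction w with
  | zero => simp only [map_zero]
  | add z z' h h' => simp only [map_add, h, h']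
  | tmul a w => rw [LinearMap.baseChange_tmul, cmp_tmul, cmp_tmul, map_smul]

theorem cmp_gam (hγ : ∀ a t, γL (a ⊗ₜ[k] t) = a • (γ t).baseChange L) (lam : L →ₗ[k] k)
    (y : L ⊗[k] T) (h : H) :
    cmp lam (γL y ((1 : L) ⊗ₜ[k] h)) = γ (cmp lam y) h := by
  induction y with
  | zero => simp only [map_zero, LinearMap.zero_apply]
  | add z z' h h' => simp only [map_add, LinearMap.add_apply, h, h']
  | tmul a w =>
    rw [hγ, LinearMap.smul_apply, LinearMap.baseChange_tmul, smul_tmul', cmp_tmul, cmp_tmul,
      smul_eq_mul, mul_one, map_smul, LinearMap.smul_apply]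

theorem sp_mem (hγ : ∀ a t, γL (a ⊗ₜ[k] t) = a • (γ t).baseChange L) (u v : L ⊗[k] T) :
    sp γL u v ∈ extEnd L (fun P : H →ₗ[k] H =>
      P ∈ Submodule.span k {Z : Module.End k H | ∃ u v, Z = sp γ u v}) := by
  induction u with
  | zero =>
    rw [sp_zero_left]
    exact Submodule.zero_mem _
  | add z z' h h' =>
    rw [sp_add_left]
    exact Submodule.add_mem _ h h'
  | tmul a t =>
    induction v with
    | zero =>
      rw [sp_zero_right]
      exact Submodule.zero_mem _
    | add z z' h h' =>
      rw [sp_add_right]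
      exact Submodule.add_mem _ h h'
    | tmul c s =>
      have h1 : sp γL (a ⊗ₜ[k] t) (c ⊗ₜ[k] s) = (a * c) • (sp γ t s).baseChange L := by
        refine LinearMap.ext fun w => ?_
        rw [sp_apply, hγ, hγ]
        induction w with
        | zero => simp only [map_zero, sub_self]
        | add z z' h h' =>
          rw [map_add ((a * c) • LinearMap.baseChange L (sp γ t s)), ← h, ← h']
          simp only [map_add]
          abel
        | tmul d w =>
          simp only [LinearMap.smul_apply, LinearMap.baseChange_tmul, map_smul, sp_apply,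
            tmul_sub, smul_sub, smul_smul, mul_comm c a]
      rw [h1]
      refine Submodule.smul_mem _ _ (Submodule.subset_span ⟨sp γ t s, ?_, rfl⟩)
      exact Submodule.subset_span ⟨t, s, rfl⟩

theorem lift_cmp (hγ : ∀ a t, γL (a ⊗ₜ[k] t) = a • (γ t).baseChange L)
    {Z : Module.End L (L ⊗[k] H)} {X : Module.End L (L ⊗[k] T)} (hX : IsLift γL Z X)
    (lam : L →ₗ[k] k) : IsLift γ (cmpE lam Z) (cmpE lam X) := by
  intro t
  refine LinearMap.ext fun h => ?_
  have h1 := congrArg (fun f : Module.End L (L ⊗[k] H) => cmp lam (f ((1 : L) ⊗ₜ[k] h)))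
    (hX ((1 : L) ⊗ₜ[k] t))
  beta_reduce at h1
  rw [LinearMap.sub_apply, Module.End.mul_apply, Module.End.mul_apply, map_sub, hγ, one_smul,
    cmp_baseChange, LinearMap.baseChange_tmul, cmp_gam hγ] at h1
  exact h1

end

theorem T_LIFTC : S_LIFTC := by
  intro k L E T H _ _ _ _ _ _ _ _ _ _ _ _ _ _ _ _ γ γL S hγ hS Z hZ X hX hc
  have h1 : Z ∈ extEnd L (fun P : H →ₗ[k] H =>
      P ∈ Submodule.span k {Z : Module.End k H | ∃ u v, Z = sp γ u v}) := by
    have hle : Submodule.span L {Z : Module.End L (L ⊗[k] H) | ∃ u v, Z = sp γL u v} ≤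
        extEnd L (fun P : H →ₗ[k] H =>
          P ∈ Submodule.span k {Z : Module.End k H | ∃ u v, Z = sp γ u v}) := by
      rw [Submodule.span_le]
      rintro _ ⟨u, v, rfl⟩
      exact sp_mem hγ u v
    exact hle hZ
  have h2 : Z ∈ extEnd L (fun P : H →ₗ[k] H => P ∈ Algebra.adjoin k S) := by
    refine end_mem_span _ Z fun lam => ?_
    have h3 : cmpE lam Z ∈ Submodule.span k {Z : Module.End k H | ∃ u v, Z = sp γ u v} :=
      cmp_of_ext _ h1 lam
    have h4 : ∀ (e : E) (t : T), cmpE lam X (e • t) = e • cmpE lam X t := by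
      intro e t
      have h5 := comm_cmp (hc e) lam
      have h6 := congrArg (fun f : Module.End k T => f t) h5
      exact h6
    let x : T →ₗ[E] T := { toFun := cmpE lam X, map_add' := map_add _, map_smul' := h4 }
    have h5 : x.restrictScalars k = cmpE lam X := rfl
    refine hS _ h3 x ?_
    rw [h5]
    exact lift_cmp hγ hX lam
  have h3 : extEnd L (fun P : H →ₗ[k] H => P ∈ Algebra.adjoin k S) ≤
      Subalgebra.toSubmodule (Algebra.adjoin L {Z' : Module.End L (L ⊗[k] H) |
        ∃ Z₀ ∈ S, Z' = Z₀.baseChange L}) := by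
    unfold extEnd
    rw [Submodule.span_le]
    rintro _ ⟨P, hP, rfl⟩
    exact Pool.Agent.W52.KU.T_ADJ k L H S P hP
  exact h3 h2

end Pool.Agent.W505.KCM.LIFTC
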