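import Pool.Agent.W516.KCM.Defs

/-!
KCM-SM4: small relations in degree four (helper505).
-/

namespace Pool.Agent.W505.KCM.SM4

open Module TensorProduct Pool.Agent.W516.KCM

set_option linter.unusedSectionVars false

variable {k E : Type} [Field k] [CharZero k] [Field E] [Algebra k E] [FiniteDimensional k E]
  [Algebra k ℂ] {ι : E →ₐ[k] E}

theorem comp_ne (hι : ∃ e, ι e ≠ e) (τ : E →ₐ[k] ℂ) : τ.comp ι ≠ τ := by
  intro h
  obtain ⟨e, he⟩ := hι
  apply he
  have h1 := DFunLike.congr_fun h e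
  exact τ.toRingHom.injective h1

theorem comp_comp (hι : ∀ e, ι (ι e) = e) (τ : E →ₐ[k] ℂ) : (τ.comp ι).comp ι = τ := by
  ext e
  simp [hι]

/-- the four embeddings -/
theorem emb4 (h4 : finrank k E = 4) (h2 : ∀ e, ι (ι e) = e) (hne : ∃ e, ι e ≠ e)
    (τ₁ : E →ₐ[k] ℂ) : ∃ τ₂ : E →ₐ[k] ℂ, ∀ f : (E →ₐ[k] ℂ) → ℂ,
      ∑ τ, f τ = f τ₁ + (f (τ₁.comp ι) + (f τ₂ + f (τ₂.comp ι))) := by
  classical
  have hc : Fintype.card (E →ₐ[k] ℂ) = 4 := by rw [AlgHom.card, h4]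
  have h1 : ∃ τ₂ : E →ₐ[k] ℂ, τ₂ ∉ ({τ₁, τ₁.comp ι} : Finset (E →ₐ[k] ℂ)) := by
    by_contra hcon
    push Not at hcon
    have h3 : (Finset.univ : Finset (E →ₐ[k] ℂ)) ⊆ {τ₁, τ₁.comp ι} := fun τ _ => hcon τ
    have h5 := Finset.card_le_card h3
    rw [Finset.card_univ, hc] at h5
    have h6 := Finset.card_le_two (a := τ₁) (b := τ₁.comp ι)
    omega
  obtain ⟨τ₂, hτ⟩ := h1
  rw [Finset.mem_insert, Finset.mem_singleton, not_or] at hτ
  refine ⟨τ₂, fun f => ?_⟩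
  have a1 : τ₁ ≠ τ₁.comp ι := (comp_ne hne τ₁).symm
  have a2 : τ₁ ≠ τ₂ := fun h => hτ.1 h.symm
  have a3 : τ₁ ≠ τ₂.comp ι := fun h => hτ.2 (by rw [h, comp_comp h2])
  have a4 : τ₁.comp ι ≠ τ₂ := fun h => hτ.2 h.symm
  have a5 : τ₁.comp ι ≠ τ₂.comp ι := fun h => a2 (by
    rw [← comp_comp h2 τ₁, h, comp_comp h2])
  have a6 : τ₂ ≠ τ₂.comp ι := (comp_ne hne τ₂).symm
  have hu : (Finset.univ : Finset (E →ₐ[k] ℂ)) = {τ₁, τ₁.comp ι, τ₂, τ₂.comp ι} := by
    symm
    apply Finset.eq_univ_of_card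
    rw [hc, Finset.card_insert_of_notMem, Finset.card_insert_of_notMem,
      Finset.card_insert_of_notMem, Finset.card_singleton]
    · simpa using a6
    · simp [a4, a5]
    · simp [a1, a2, a3]
  rw [hu, Finset.sum_insert, Finset.sum_insert, Finset.sum_insert, Finset.sum_singleton]
  · simpa using a6
  · simp [a4, a5]
  · simp [a1, a2, a3]

theorem T_SM4 : S_SM4 := by
  intro k E _ _ _ _ _ _ ι h4 h2 hne s hs hs0
  classical
  obtain ⟨τ₁, hτ₁⟩ : ∃ τ, s τ ≠ 0 := by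
    by_contra hcon
    push Not at hcon
    exact hs0 (funext hcon)
  by_cases hB : ∃ z : E, z ≠ 0 ∧ ι z = -z ∧ ∑ τ : E →ₐ[k] ℂ, (s τ : ℂ) * τ z = 0
  · obtain ⟨z, hz0, hz, hsum⟩ := hB
    obtain ⟨τ₂, hτ⟩ := emb4 h4 h2 hne τ₁
    have e1 : (s τ₁ : ℂ) * τ₁ z + (s τ₂ : ℂ) * τ₂ z = 0 := by
      have h1 := hτ (fun τ => (s τ : ℂ) * τ z)
      rw [hsum, hs, hs, AlgHom.comp_apply, AlgHom.comp_apply, hz, map_neg, map_neg] at h1
      push_cast at h1
      linear_combination (-1 / 2 : ℂ) * h1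
    have z1 : τ₁ z ≠ 0 := fun h => hz0 (τ₁.toRingHom.injective (by
      show τ₁ z = τ₁ 0
      rw [h, map_zero]))
    have x0 : (s τ₁ : ℂ) ≠ 0 := by exact_mod_cast hτ₁
    have y0 : s τ₂ ≠ 0 := by
      intro h
      rw [h, Int.cast_zero, zero_mul, add_zero] at e1
      exact mul_ne_zero x0 z1 e1
    have hw : ι (z ^ 2) = z ^ 2 := by rw [map_pow, hz, neg_sq]
    have e2 : (s τ₁ : ℂ) ^ 2 * τ₁ (z ^ 2) = (s τ₂ : ℂ) ^ 2 * τ₂ (z ^ 2) := by
      rw [map_pow, map_pow]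
      linear_combination ((s τ₁ : ℂ) * τ₁ z - (s τ₂ : ℂ) * τ₂ z) * e1
    have e3 : algebraMap k ℂ (Algebra.trace k E (z ^ 2)) = 2 * (τ₁ (z ^ 2) + τ₂ (z ^ 2)) := by
      rw [trace_eq_sum_embeddings, hτ (fun τ => τ (z ^ 2)), AlgHom.comp_apply, AlgHom.comp_apply,
        hw]
      ring
    have hpos : 0 < s τ₁ ^ 2 + s τ₂ ^ 2 := by positivity
    have hk : (2 * ((s τ₁ : k) ^ 2 + (s τ₂ : k) ^ 2)) ≠ 0 := by
      have : (2 * (s τ₁ ^ 2 + s τ₂ ^ 2) : ℤ) ≠ 0 := by omega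
      exact_mod_cast (Int.cast_ne_zero (α := k)).2 this
    have hC : (2 * ((s τ₁ : ℂ) ^ 2 + (s τ₂ : ℂ) ^ 2)) ≠ 0 := by
      have : (2 * (s τ₁ ^ 2 + s τ₂ ^ 2) : ℤ) ≠ 0 := by omega
      exact_mod_cast (Int.cast_ne_zero (α := ℂ)).2 this
    obtain ⟨r, hr⟩ : ∃ r : k, r = (s τ₂ : k) ^ 2 * Algebra.trace k E (z ^ 2) /
      (2 * ((s τ₁ : k) ^ 2 + (s τ₂ : k) ^ 2)) := ⟨_, rfl⟩
    have e4 : τ₁ (z ^ 2) = algebraMap k ℂ r := by
      rw [hr, map_div₀, map_mul, e3]
      simp only [map_mul, map_add, map_pow, map_intCast, map_ofNat]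
      rw [eq_div_iff hC]
      have e2' := e2
      rw [map_pow, map_pow] at e2'
      linear_combination (2 : ℂ) * e2'
    have e5 : z ^ 2 = algebraMap k E r := by
      apply τ₁.toRingHom.injective
      show τ₁ (z ^ 2) = τ₁ (algebraMap k E r)
      rw [e4, AlgHom.commutes]
    have e6 : τ₂ (z ^ 2) = τ₁ (z ^ 2) := by
      rw [e4, e5, AlgHom.commutes]
    have w0 : τ₁ (z ^ 2) ≠ 0 := by
      rw [map_pow]
      exact pow_ne_zero 2 z1
    have e7 : s τ₁ ^ 2 = s τ₂ ^ 2 := by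
      rw [e6] at e2
      have := mul_right_cancel₀ w0 e2
      exact_mod_cast this
    have e8 : |s τ₂| = |s τ₁| := (sq_eq_sq_iff_abs_eq_abs _ _).1 e7.symm
    -- all values
    have hall : ∀ τ, s τ = |s τ₁| * Int.sign (s τ) := by
      intro τ
      have h5 : |s τ| = |s τ₁| := by
        by_contra hcon
        have h6 : τ ≠ τ₁ ∧ τ ≠ τ₁.comp ι ∧ τ ≠ τ₂ ∧ τ ≠ τ₂.comp ι := by
          refine ⟨?_, ?_, ?_, ?_⟩ <;> intro h <;> apply hcon <;> rw [h]
          · rw [hs, abs_neg]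
          · exact e8
          · rw [hs, abs_neg]
            exact e8
        have h7 := hτ (fun τ' => if τ' = τ then 1 else 0)
        rw [Finset.sum_ite_eq' Finset.univ τ, if_pos (Finset.mem_univ _), if_neg h6.1.symm,
          if_neg h6.2.1.symm, if_neg h6.2.2.1.symm, if_neg h6.2.2.2.symm] at h7
        norm_num at h7
      rw [← h5, mul_comm]
      exact (Int.sign_mul_abs _).symm
    refine ⟨fun τ => Int.sign (s τ), fun τ => ?_, ?_, fun τ => ?_, fun u hu hsu => ?_⟩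
    · beta_reduce
      rw [hs, Int.sign_neg]
    · intro h
      have := congrFun h τ₁
      beta_reduce at this
      rw [Pi.zero_apply, Int.sign_eq_zero_iff_zero] at this
      exact hτ₁ this
    · rcases lt_trichotomy (s τ) 0 with h | h | h
      · right; right; exact Int.sign_eq_neg_one_of_neg h
      · left; beta_reduce; rw [h]; rfl
      · right; left; exact Int.sign_eq_one_of_pos h
    · have h5 : ∑ τ : E →ₐ[k] ℂ, (s τ : ℂ) * τ u =
          (|s τ₁| : ℤ) * ∑ τ : E →ₐ[k] ℂ, (Int.sign (s τ) : ℂ) * τ u := by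
        rw [Finset.mul_sum]
        refine Finset.sum_congr rfl fun τ _ => ?_
        rw [← mul_assoc]
        congr 1
        have := hall τ
        exact_mod_cast this
      rw [hsu] at h5
      have h6 : ((|s τ₁| : ℤ) : ℂ) ≠ 0 := by
        have : |s τ₁| ≠ 0 := abs_ne_zero.2 hτ₁
        exact_mod_cast this
      exact (mul_eq_zero.1 h5.symm).resolve_left h6
  · push Not at hB
    refine ⟨fun τ => (if τ = τ₁ then 1 else 0) - if τ = τ₁.comp ι then 1 else 0, fun τ => ?_,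
      ?_, fun τ => ?_, fun z hz hsz => ?_⟩
    · beta_reduce
      have h5 : (τ.comp ι = τ₁) ↔ (τ = τ₁.comp ι) := by
        constructor
        · rintro rfl
          rw [comp_comp h2]
        · rintro rfl
          rw [comp_comp h2]
      have h6 : (τ.comp ι = τ₁.comp ι) ↔ (τ = τ₁) := by
        constructor
        · intro h
          rw [← comp_comp h2 τ, h, comp_comp h2]
        · rintro rfl
          rfl
      simp only [h5, h6]
      ring
    · intro h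
      have := congrFun h τ₁
      beta_reduce at this
      rw [if_pos rfl, if_neg (comp_ne hne τ₁).symm, Pi.zero_apply] at this
      norm_num at this
    · beta_reduce
      split_ifs <;> simp
    · have hz0 : z = 0 := by
        by_contra h
        exact hB z h hz hsz
      rw [hz0]
      simp

end Pool.Agent.W505.KCM.SM4
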